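import Pool.Agent.W477.CN.Main

/-!
# The cancellation law can fail for equidecomposability with pieces in a subalgebra

X is the set of the integers, G is the group of the permutations of X that agree outside a finite
set with the translation by an even number, and the algebra consists of the sets that are constant
near +∞ and near -∞. If α is the type of {0, 1, 2, ...} and β is the type of {-1, 0, 1, 2, ...} then
2α = 2β but α ≠ β: all points are equivalent under G, and adding two points to a half line does not
change its type, but adding one point does (the parity of the number of points in the window
[-2l, 2l) is, for large l, an invariant of equidecomposability).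
-/

namespace Pool.Agent.Results.MP_3fd8c4_al.CancellationFails

open W477.CN

theorem result : ∃ (X G : Type) (_ : Group G) (_ : MulAction G X) (S : Sys X G),
    S.alg ≠ Set.univ ∧ ∃ α β : Ty S, nsum 2 α = nsum 2 β ∧ α ≠ β :=
  ⟨ℤ, H, inferInstance, inferInstance, sys, ev_ne, main⟩

end Pool.Agent.Results.MP_3fd8c4_al.CancellationFails
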